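import Pool.Agent.Helper70.MM.Goals2

/-!
Packet MM-CEDGE: the potential of the vertices of the cube on the edges issuing from `0`.
-/

open MeasureTheory Set Metric
open scoped ENNReal RealInnerProductSpace Topology
open Pool.Agent.Results.MP_91ee6f_gt

namespace Pool.Agent.Helper20.MM

open Pool.Agent.Helper70.MM

/-- Distance from a point of the edge to a vertex with `i ∉ T`. -/
lemma dist_notMem {n : ℕ} (ℓ s : ℝ) (i : Fin n) (T : Finset (Fin n)) (hi : i ∉ T) :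
    dist (EuclideanSpace.single i s : En n) (vert n ℓ T) =
      Real.sqrt ((T.card : ℝ) * ℓ ^ 2 + s ^ 2) := by
  rw [EuclideanSpace.dist_eq]
  congr 1
  have hterm : ∀ j : Fin n, dist ((EuclideanSpace.single i s : En n) j) ((vert n ℓ T) j) ^ 2 =
      (if j ∈ T then ℓ ^ 2 else 0) + (if j = i then s ^ 2 else 0) := by
    intro j
    rw [Real.dist_eq, sq_abs]
    by_cases hj : j = i
    · subst hj
      simp [vert, hi]
    · by_cases hT : j ∈ T
      · simp [vert, hj, hT]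
      · simp [vert, hj, hT]
  rw [Finset.sum_congr rfl (fun j _ => hterm j), Finset.sum_add_distrib]
  simp [Finset.sum_ite_mem]

/-- Distance from a point of the edge to a vertex `insert i T` with `i ∉ T`. -/
lemma dist_insert {n : ℕ} (ℓ s : ℝ) (i : Fin n) (T : Finset (Fin n)) (hi : i ∉ T) :
    dist (EuclideanSpace.single i s : En n) (vert n ℓ (insert i T)) =
      Real.sqrt ((T.card : ℝ) * ℓ ^ 2 + (ℓ - s) ^ 2) := by
  rw [EuclideanSpace.dist_eq]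
  congr 1
  have hterm : ∀ j : Fin n,
      dist ((EuclideanSpace.single i s : En n) j) ((vert n ℓ (insert i T)) j) ^ 2 =
      (if j ∈ T then ℓ ^ 2 else 0) + (if j = i then (ℓ - s) ^ 2 else 0) := by
    intro j
    rw [Real.dist_eq, sq_abs]
    by_cases hj : j = i
    · subst hj
      simp [vert, hi]
      ring
    · by_cases hT : j ∈ T
      · simp [vert, hj, hT]
      · simp [vert, hj, hT]
  rw [Finset.sum_congr rfl (fun j _ => hterm j), Finset.sum_add_distrib]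
  simp [Finset.sum_ite_mem]

/-- The potential on the edge, as a sum over the subsets not containing `i`. -/
lemma pv_single {n : ℕ} (ℓ s : ℝ) (i : Fin n) :
    PV n ℓ (EuclideanSpace.single i s) =
      ∑ T ∈ (Finset.univ.erase i).powerset,
        (Real.exp (-Real.sqrt ((T.card : ℝ) * ℓ ^ 2 + s ^ 2)) +
          Real.exp (-Real.sqrt ((T.card : ℝ) * ℓ ^ 2 + (ℓ - s) ^ 2))) := by
  unfold PV
  have huniv : (Finset.univ : Finset (Finset (Fin n))) =
      (insert i (Finset.univ.erase i)).powerset := by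
    rw [Finset.insert_erase (Finset.mem_univ i), Finset.powerset_univ]
  rw [huniv, Finset.sum_powerset_insert (Finset.notMem_erase i _), ← Finset.sum_add_distrib]
  refine Finset.sum_congr rfl (fun T hT => ?_)
  have hi : i ∉ T := fun h => Finset.notMem_erase i _ (Finset.mem_powerset.mp hT h)
  rw [dist_notMem ℓ s i T hi, dist_insert ℓ s i T hi]

/-- The lower bound for the contribution of the subsets with `m` elements. -/
noncomputable def low (ℓ s : ℝ) : ℕ → ℝ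
  | 0 => -(s * (ℓ - s) * ((1 - Real.exp (-ℓ)) / ℓ))
  | 1 => s * (ℓ - s) * (Real.exp (-(Real.sqrt 2 * ℓ)) / (Real.sqrt 2 * ℓ))
  | _ + 2 => 0

lemma low_le (h0 : EDGE0) (h1 : EDGE1) (h2 : EDGE2) (ℓ s : ℝ) (hℓ : 0 < ℓ) (hℓ2 : ℓ ≤ 1 / 2)
    (hs : 0 ≤ s) (hsℓ : s ≤ ℓ) (m : ℕ) :
    (Real.exp (-Real.sqrt ((m : ℝ) * ℓ ^ 2 + 0 ^ 2)) +
        Real.exp (-Real.sqrt ((m : ℝ) * ℓ ^ 2 + (ℓ - 0) ^ 2))) + low ℓ s m ≤
      Real.exp (-Real.sqrt ((m : ℝ) * ℓ ^ 2 + s ^ 2)) +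
        Real.exp (-Real.sqrt ((m : ℝ) * ℓ ^ 2 + (ℓ - s) ^ 2)) := by
  match m with
  | 0 =>
    have e := h0 ℓ s hℓ hs hsℓ
    have a1 : Real.sqrt (((0 : ℕ) : ℝ) * ℓ ^ 2 + 0 ^ 2) = 0 := by simp
    have a2 : Real.sqrt (((0 : ℕ) : ℝ) * ℓ ^ 2 + (ℓ - 0) ^ 2) = ℓ := by
      rw [Nat.cast_zero, zero_mul, zero_add, sub_zero, Real.sqrt_sq hℓ.le]
    have a3 : Real.sqrt (((0 : ℕ) : ℝ) * ℓ ^ 2 + s ^ 2) = s := by
      rw [Nat.cast_zero, zero_mul, zero_add, Real.sqrt_sq hs]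
    have a4 : Real.sqrt (((0 : ℕ) : ℝ) * ℓ ^ 2 + (ℓ - s) ^ 2) = ℓ - s := by
      rw [Nat.cast_zero, zero_mul, zero_add, Real.sqrt_sq (by linarith)]
    rw [a1, a2, a3, a4, neg_zero, Real.exp_zero]
    simp only [low]
    linarith
  | 1 =>
    have e := h1 ℓ s hℓ hℓ2 hs hsℓ
    have a1 : Real.sqrt (((1 : ℕ) : ℝ) * ℓ ^ 2 + 0 ^ 2) = ℓ := by
      rw [Nat.cast_one, one_mul]
      rw [show ℓ ^ 2 + (0 : ℝ) ^ 2 = ℓ ^ 2 by ring, Real.sqrt_sq hℓ.le]
    have a2 : Real.sqrt (((1 : ℕ) : ℝ) * ℓ ^ 2 + (ℓ - 0) ^ 2) = Real.sqrt 2 * ℓ := by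
      rw [Nat.cast_one, one_mul, sub_zero, show ℓ ^ 2 + ℓ ^ 2 = 2 * ℓ ^ 2 by ring,
        Real.sqrt_mul (by norm_num), Real.sqrt_sq hℓ.le]
    rw [a1, a2, Nat.cast_one, one_mul]
    simp only [low]
    linarith
  | k + 2 =>
    have ha : ℓ ≤ Real.sqrt (((k + 2 : ℕ) : ℝ)) * ℓ := by
      have hk : (1 : ℝ) ≤ Real.sqrt (((k + 2 : ℕ) : ℝ)) := by
        rw [Real.one_le_sqrt]
        push_cast
        have : (0 : ℝ) ≤ k := Nat.cast_nonneg k
        linarith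
      nlinarith
    have hsq : (Real.sqrt (((k + 2 : ℕ) : ℝ)) * ℓ) ^ 2 = ((k + 2 : ℕ) : ℝ) * ℓ ^ 2 := by
      rw [mul_pow, Real.sq_sqrt (Nat.cast_nonneg _)]
    have e := h2 (Real.sqrt (((k + 2 : ℕ) : ℝ)) * ℓ) ℓ s hℓ hℓ2 ha hs hsℓ
    rw [hsq] at e
    have a1 : Real.sqrt (((k + 2 : ℕ) : ℝ) * ℓ ^ 2 + 0 ^ 2) =
        Real.sqrt (((k + 2 : ℕ) : ℝ)) * ℓ := by
      rw [show ((k + 2 : ℕ) : ℝ) * ℓ ^ 2 + (0 : ℝ) ^ 2 = ((k + 2 : ℕ) : ℝ) * ℓ ^ 2 by ring,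
        Real.sqrt_mul (Nat.cast_nonneg _), Real.sqrt_sq hℓ.le]
    rw [a1, sub_zero]
    simp only [low]
    linarith

/-- Packet MM-CEDGE. -/
theorem cedge : EDGE0 → EDGE1 → EDGE2 → CEDGE := by
  intro h0 h1 h2 n ℓ hn hℓ hℓ2 hcond i s hs hsℓ
  have hzero : (0 : En n) = EuclideanSpace.single i (0 : ℝ) := by
    ext j
    by_cases hj : j = i <;> simp [hj]
  rw [hzero, pv_single, pv_single]
  have hsum : 0 ≤ ∑ T ∈ ((Finset.univ : Finset (Fin n)).erase i).powerset, low ℓ s T.card := by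
    rw [Finset.sum_powerset_apply_card (low ℓ s)]
    have hcard : ((Finset.univ : Finset (Fin n)).erase i).card = n - 1 := by
      rw [Finset.card_erase_of_mem (Finset.mem_univ i), Finset.card_univ, Fintype.card_fin]
    rw [hcard]
    obtain ⟨k, rfl⟩ : ∃ k, n = k + 2 := ⟨n - 2, by omega⟩
    rw [show k + 2 - 1 = k + 1 by omega, Finset.sum_range_succ', Finset.sum_range_succ']
    have hz : ∑ m ∈ Finset.range k, ((k + 1).choose (m + 1 + 1)) • low ℓ s (m + 1 + 1) = 0 :=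
      Finset.sum_eq_zero (fun m _ => by simp [low])
    rw [hz]
    simp only [zero_add, Nat.choose_one_right, Nat.choose_zero_right, one_smul, nsmul_eq_mul, low]
    push_cast at hcond ⊢
    have hprod : 0 ≤ s * (ℓ - s) / ℓ := by
      apply div_nonneg _ hℓ.le
      exact mul_nonneg hs (by linarith)
    have hs2 : (0 : ℝ) < Real.sqrt 2 := Real.sqrt_pos.mpr (by norm_num)
    have key : (((k : ℝ) + 1) *
        (s * (ℓ - s) * (Real.exp (-(Real.sqrt 2 * ℓ)) / (Real.sqrt 2 * ℓ)))) +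
          -(s * (ℓ - s) * ((1 - Real.exp (-ℓ)) / ℓ)) =
        (s * (ℓ - s) / ℓ) * (Real.exp (-ℓ) +
          ((k : ℝ) + 2 - 1) * (Real.exp (-(Real.sqrt 2 * ℓ)) / Real.sqrt 2) - 1) := by
      field_simp
      ring
    rw [key]
    exact mul_nonneg hprod (by linarith)
  calc ∑ T ∈ ((Finset.univ : Finset (Fin n)).erase i).powerset,
        (Real.exp (-Real.sqrt ((T.card : ℝ) * ℓ ^ 2 + 0 ^ 2)) +
          Real.exp (-Real.sqrt ((T.card : ℝ) * ℓ ^ 2 + (ℓ - 0) ^ 2)))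
      ≤ ∑ T ∈ ((Finset.univ : Finset (Fin n)).erase i).powerset,
        (Real.exp (-Real.sqrt ((T.card : ℝ) * ℓ ^ 2 + 0 ^ 2)) +
          Real.exp (-Real.sqrt ((T.card : ℝ) * ℓ ^ 2 + (ℓ - 0) ^ 2))) +
        ∑ T ∈ ((Finset.univ : Finset (Fin n)).erase i).powerset, low ℓ s T.card := by
        linarith
    _ = ∑ T ∈ ((Finset.univ : Finset (Fin n)).erase i).powerset,
        ((Real.exp (-Real.sqrt ((T.card : ℝ) * ℓ ^ 2 + 0 ^ 2)) +
          Real.exp (-Real.sqrt ((T.card : ℝ) * ℓ ^ 2 + (ℓ - 0) ^ 2))) + low ℓ s T.card) := by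
        rw [← Finset.sum_add_distrib]
    _ ≤ _ := Finset.sum_le_sum (fun T _ => low_le h0 h1 h2 ℓ s hℓ hℓ2 hs hsℓ T.card)

end Pool.Agent.Helper20.MM
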